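import Pool.Agent.H19.Butler2

set_option autoImplicit false

namespace Pool.Agent.Results.MP_9f65ab_al.Counterexample

open Pool.Agent.H19.Butler

variable {K : AddSubgroup V}

def fv (f : V) : Fin 7 → V := ![f, ![0, 2, 0, -1, 0], ![0, 0, 0, 1, 0], ![0, 0, 2, -1, 0],
  ![0, 0, 0, 0, 1], ![2, 0, 1, 0, 1], 1]

def pc (K : AddSubgroup V) (v : V) : AddSubgroup V := K ⊓ (Submodule.span ℚ {v}).toAddSubgroup

theorem mem_pc {v x : V} : x ∈ pc K v ↔ x ∈ K ∧ ∃ q : ℚ, q • v = x :=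
  and_congr_right fun _ => Submodule.mem_span_singleton

theorem ker_fv (f : V) {j : Fin 7} (h0 : j ≠ 0) (h6 : j ≠ 6) {x : V} :
    L j x = 0 ↔ ∃ q : ℚ, q • fv f j = x := by
  constructor
  · intro h
    refine ⟨![0, -x 3, x 3, -x 3, x 4, x 4, 0] j, ?_⟩
    fin_cases j <;> simp only [V_ext, L_def] at h <;> simp at h h0 h6 <;> ext i <;> fin_cases i <;>
      simp [fv] <;> linarith [h.1, h.2.1, h.2.2.1, h.2.2.2]
  · rintro ⟨q, rfl⟩
    fin_cases j <;> simp at h0 h6 <;> simp [V_ext, L_def, fv] <;> ring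

theorem rank1 (hK : Hyp K) {v : V} (hv : v ≠ 0) : Rank1 (pc K v) := by
  refine ⟨fun h => ?_, v, fun x hx => (mem_pc.1 hx).2.imp fun _ h => h.symm⟩
  obtain ⟨n, hn, h1⟩ := hK.full v
  have : n • v ∈ pc K v := mem_pc.2 ⟨h1, n, Nat.cast_smul_eq_nsmul ℚ n v⟩
  rw [h, AddSubgroup.mem_bot, ← Nat.cast_smul_eq_nsmul ℚ] at this
  exact smul_ne_zero (Nat.cast_ne_zero.2 hn) hv this

theorem exists_reg (hK : Hyp K) (f : V) (h0 : f 0 ≠ 0) (h4 : f 4 = 0)
    (hf : ∀ x ∈ K, x 4 = 0 → (x 0 / f 0) • f ∈ K) (Z : AddSubgroup V)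
    (hZ : ∀ j, j ≠ 6 → ∀ q : ℚ, q • fv f j ∈ K → q • fv f j ∈ Z) : Reg K ≤ Z := by
  classical
  have hL : ∀ j, j ≠ 6 → ∀ q : ℚ, q ≠ 0 → ∀ i, L i (q • fv f j) = 0 ↔ i ∈ C j := by
    intro j hj q hq i
    have h1 : L j (q • fv f j) = 0 := by
      by_cases h : j = 0
      · subst h; simp [V_ext, L_def, fv, h4]
      · exact (ker_fv f h hj).2 ⟨q, rfl⟩
    refine ⟨fun h => by_contra fun hi => ?_, L_C h1⟩
    rcases L_nC h1 h hi with h | ⟨rfl, h⟩
    · refine smul_ne_zero hq ?_ h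
      fin_cases j <;> simp [V_ext, fv, h0] at hj ⊢
    · exact mul_ne_zero hq h0 h
  have hne : ∀ j, fv f j ≠ 0 := fun j => by fin_cases j <;> simp [V_ext, fv, h0]
  have uniq : ∀ i j : Fin 7, C i ⊆ C j → C j ⊆ C i → i = j := by decide
  let P : (Nat.Primes → ℕ∞) → Fin 7 → Prop := fun τ j => j ≠ 6 ∧ TLe τ (crit j) ∧ TLe (crit j) τ
  have hP : ∀ τ i j, P τ i → P τ j → i = j := fun τ i j hi hj =>
    uniq i j ((crit_le hi.1).1 (hi.2.2.trans hj.2.1)) ((crit_le hj.1).1 (hj.2.2.trans hi.2.1))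
  let F : (Nat.Primes → ℕ∞) → AddSubgroup V := fun τ => ⨆ j ∈ {j | P τ j}, pc K (fv f j)
  have hF : ∀ τ j, P τ j → F τ = pc K (fv f j) := fun τ j hj => le_antisymm
    (iSup₂_le fun i hi => by rw [hP τ i j hi hj])
    (le_iSup₂ (f := fun j (_ : j ∈ {j | P τ j}) => pc K (fv f j)) j hj)
  refine (sInf_le (show (⨆ τ, F τ) ∈ {C | Regulating K C} from
    ⟨F, fun τ σ h h' => ?_, fun τ => ?_, rfl⟩)).trans
    (iSup_le fun τ => iSup₂_le fun j hj x hx => ?_)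
  · have : {j | P τ j} = {j | P σ j} := Set.ext fun j =>
      ⟨fun a => ⟨a.1, h'.trans a.2.1, a.2.2.trans h⟩, fun a => ⟨a.1, h.trans a.2.1, a.2.2.trans h'⟩⟩
    simp only [F, this]
  · rw [hK.sharp, hK.gt]
    by_cases h : ∃ j, P τ j
    · obtain ⟨j, hj⟩ := h
      rw [hF τ j hj, le_antisymm (Ws_congr hj.2.1 hj.2.2) (Ws_congr hj.2.2 hj.2.1),
        le_antisymm (W_anti hj.2.2) (W_anti hj.2.1)]
      refine ⟨⟨1, fun _ => pc K (fv f j), iSupIndep_subsingleton _, iSup_const, fun _ =>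
        ⟨rank1 hK (hne j), fun x hx hx0 => ?_⟩⟩, ?_, le_antisymm (sup_le ?_ ?_) ?_⟩
      · rw [pc, ht_inf K _ hx.2]
        obtain ⟨hxK, q, rfl⟩ := mem_pc.1 hx
        have hq : q ≠ 0 := left_ne_zero_of_smul hx0
        exact ⟨hj.2.1.trans ((crit_ae hj.1).tle fun p hp => (hK.top_iff hxK p).2
          ((hL j hj.1 q hq _).2 (crit_top.1 hp))), ((hK.ae hx0).tle fun p hp => crit_top.2
          ((hL j hj.1 q hq _).1 ((hK.top_iff hxK p).1 hp))).trans hj.2.2⟩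
      · refine AddSubgroup.disjoint_def.2 fun hx hx' => ?_
        obtain ⟨-, q, rfl⟩ := mem_pc.1 hx
        rcases Ws_crit hj.1 hx'.2 with h | ⟨rfl, h⟩
        · exact h
        · rw [(mul_eq_zero.1 h).resolve_right h0, zero_smul]
      · intro x hx
        obtain ⟨hxK, q, rfl⟩ := mem_pc.1 hx
        refine ⟨hxK, (mem_W_crit hj.1).2 ?_⟩
        rw [map_smul, ← one_smul ℚ (fv f j), (hL j hj.1 1 one_ne_zero j).2, smul_zero]
        clear hj hx hxK; revert j; decide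
      · exact inf_le_inf le_rfl (Ws_le _)
      · intro x hx
        have h1 := (mem_W_crit hj.1).1 hx.2
        by_cases h : j = 0
        · subst h
          have h2 : x 4 = 0 := congrFun h1 4
          have h3 := hf x hx.1 h2
          rw [← add_sub_cancel ((x 0 / f 0) • f) x]
          exact AddSubgroup.add_mem_sup (mem_pc.2 ⟨h3, _, rfl⟩) ⟨K.sub_mem hx.1 h3,
            mem_Ws0 (by simp [h0]) (by simp [h2, h4])⟩
        · exact AddSubgroup.mem_sup_left (mem_pc.2 ⟨hx.1, (ker_fv f h hj.1).1 h1⟩)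
    · have : F τ = ⊥ := eq_bot_iff.2 (iSup₂_le fun j hj => (h ⟨j, hj⟩).elim)
      rw [this, le_antisymm (Ws_le τ) (noncrit fun j hj h' => h ⟨j, hj, h'⟩)]
      exact ⟨⟨0, Fin.elim0, iSupIndep_subsingleton _, iSup_of_empty _, fun i => i.elim0⟩,
        disjoint_bot_left, bot_sup_eq _⟩
  · obtain ⟨hxK, q, rfl⟩ := mem_pc.1 hx
    exact hZ j hj.1 q hxK

theorem hG0 : Hyp G0 := ⟨le_rfl, fun _ h => nsmul_mem h 2⟩

def cond (a b c : ℚ) : AddSubgroup V where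
  carrier := {x | a * x 0 + b * x 1 + c * x 2 ∈ Zp two}
  zero_mem' := by simp
  add_mem' ha hb := lin 1 ((Zp two).add_mem ha hb) (by simp; ring)
  neg_mem' ha := lin (-1) ha (by simp; ring)

theorem m0 {y : V} (hy : y ∈ G0) (y4 : y 4 = 0) : ![y 0, 0, 0, 0, 0] ∈ G0 := by
  intro p j
  have h := hy p
  generalize idx p.1 = i at h ⊢
  have h0 := h 0
  fin_cases i <;> simp only [L_def] at h0 ⊢ <;> fin_cases j <;> simp [y4] at h0 ⊢ <;>
    first | exact h0 | exact lin 2 h0 (by simp)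

theorem m1 {y : V} (hy : y ∈ G0) (y4 : y 4 = 0) : ![0, 2 * y 1, 0, -y 1, 0] ∈ G0 := by
  intro p j
  have h := hy p
  generalize idx p.1 = i at h ⊢
  have h1 := h 1
  fin_cases i <;> simp only [L_def] at h1 ⊢ <;> fin_cases j <;> simp [y4] at h1 ⊢ <;>
    first | exact h1 | exact lin 2 h1 (by simp)

theorem m2 {y : V} (hy : y ∈ G0) (y4 : y 4 = 0) : ![0, 0, 2 * y 2, -y 2, 0] ∈ G0 := by
  intro p j
  have h := hy p
  generalize idx p.1 = i at h ⊢
  have h2 := h 2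
  fin_cases i <;> simp only [L_def] at h2 ⊢ <;> fin_cases j <;> simp [y4] at h2 ⊢ <;>
    first | exact h2 | exact lin 2 h2 (by simp)

theorem m3 {y : V} (hy : y ∈ G0) (y4 : y 4 = 0) : ![y 0, y 0, 0, 0, 0] ∈ G0 := by
  intro p j
  have h := hy p
  generalize idx p.1 = i at h ⊢
  have h0 := h 0
  fin_cases i <;> simp only [L_def] at h0 ⊢ <;> fin_cases j <;> simp [y4] at h0 ⊢ <;>
    first | exact h0 | exact lin 2 h0 (by simp)

theorem m4 {y : V} (hy : y ∈ G0) (y4 : y 4 = 0) (h2 : y ∈ cond (1 / 2) 0 0) :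
    ![y 0, 0, y 0 / 2, 0, 0] ∈ G0 := by
  intro p j
  have h0 := hy p 0
  have h : L (idx p.1) y 0 / 2 ∈ Zp p := by
    by_cases hp : p = two
    · subst hp; exact lin 1 h2 (by rw [show idx two.1 = 6 from rfl, L6]; simp; ring)
    · exact lin 1 (Zp_div (n := 2) (fun h => hp (Subtype.ext
        ((Nat.prime_dvd_prime_iff_eq p.2 Nat.prime_two).1 h))) h0) (by simp; ring)
  generalize idx p.1 = i at h h0 ⊢
  fin_cases i <;> simp only [L_def] at h h0 ⊢ <;> fin_cases j <;> simp [y4] at h h0 ⊢ <;>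
    first | exact h0 | exact h

theorem two_mem (D : AddSubgroup V) (h1 : ∀ j, j ≠ 0 → j ≠ 6 → ∀ x ∈ G0, L j x = 0 → x ∈ D)
    (h2 : ∀ x ∈ G0, x 4 = 0 → ∃ f ∈ D, f ∈ G0 ∧ f 0 = x 0 ∧ f 4 = 0) : ∀ x ∈ G0, 2 • x ∈ D := by
  have a1 : ∀ y ∈ G0, y 0 = 0 → y 4 = 0 → 2 • y ∈ D := by
    intro y hy y0 y4
    have : 2 • y = ![0, 2 * y 1, 0, -y 1, 0] + ![0, 0, 2 * y 2, -y 2, 0] +
        (2 • y - ![0, 2 * y 1, 0, -y 1, 0] - ![0, 0, 2 * y 2, -y 2, 0]) := by abel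
    rw [this]
    refine add_mem (add_mem (h1 1 (by decide) (by decide) _ (m1 hy y4) ?_)
      (h1 3 (by decide) (by decide) _ (m2 hy y4) ?_)) (h1 2 (by decide) (by decide) _
      (sub_mem (sub_mem (nsmul_mem hy 2) (m1 hy y4)) (m2 hy y4)) ?_) <;>
    simp [V_ext, L_def, y0, y4, Matrix.vecHead, Matrix.vecTail]
  have a2 : ∀ y ∈ G0, y 4 = 0 → 2 • y ∈ D := by
    intro y hy y4
    obtain ⟨f, f1, f2, f3, f4⟩ := h2 y hy y4
    rw [← add_sub_cancel f y, smul_add]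
    exact add_mem (nsmul_mem f1 2) (a1 _ (sub_mem hy f2) (by simp [f3]) (by simp [f4, y4]))
  have a3 : ∀ (y : V) (m : Fin 5 → ℤ), (∀ j, y j = m j) → 2 • y ∈ D := by
    intro y m hm
    have h0 : L 0 y ∈ G0 := G0_int (m := ![0, 0, 0, 0, m 4]) fun j => by
      fin_cases j <;> simp [L_def, hm]
    rw [← sub_add_cancel y (L 0 y), smul_add]
    exact add_mem (a2 _ (sub_mem (G0_int hm) h0) (by simp [L_def]))
      (nsmul_mem (h1 4 (by decide) (by decide) _ h0 (by simp [V_ext, L_def])) 2)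
  intro x hx
  refine local_global D _ fun p => ?_
  obtain ⟨n, hn, m, hm⟩ := G0_L hx p
  refine ⟨n, hn, ?_⟩
  have h3 : n • x - n • L (idx p.1) x ∈ G0 := sub_mem (nsmul_mem hx n) (G0_int hm)
  have h4 : L (idx p.1) (n • x - n • L (idx p.1) x) = 0 := by
    rw [← smul_sub, map_nsmul, L_idem, smul_zero]
  rw [smul_comm, ← sub_add_cancel (n • x) (n • L (idx p.1) x), smul_add]
  refine add_mem ?_ (a3 _ m hm)
  by_cases h0 : idx p.1 = 0
  · rw [h0] at h3 h4 ⊢; exact a2 _ h3 (congrFun h4 4)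
  by_cases h6 : idx p.1 = 6
  · rw [h6, L6]; simp
  · exact nsmul_mem (h1 _ h0 h6 _ h3 h4) 2

theorem at_two {x : V} (hx : x ∈ G0) (j : Fin 5) : x j ∈ Zp two := by
  have := hx two j
  rwa [show idx two.1 = 6 from rfl, L6] at this

def M : AddSubgroup V := G0 ⊓ cond (1 / 2) 0 0 ⊓ cond 0 (1 / 2) 0

theorem hM : Hyp M := ⟨fun _ h => h.1.1, fun x h => ⟨⟨nsmul_mem h 2,
  lin 1 (at_two h 0) (by simp)⟩, lin 1 (at_two h 1) (by simp)⟩⟩

theorem odd_or (D : AddSubgroup V) {x : V} (h2 : 2 • x ∈ D)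
    (h : ∃ n : ℕ, ¬ 2 ∣ n ∧ n • x ∈ D) : x ∈ D :=
  local_global D x fun p => by
    by_cases hp : p.1 = 2
    · rwa [hp]
    · exact ⟨2, fun h => hp ((Nat.prime_dvd_prime_iff_eq p.2 Nat.prime_two).1 h), h2⟩

theorem reg_G0 : Reg G0 = M := by
  refine le_antisymm (fun x hx => ?_) (le_sInf ?_)
  · have a := exists_reg hG0 ![1, 0, 0, 0, 0] (by simp) rfl
      (fun x hx h => by convert m0 hx h using 1; ext j; fin_cases j <;> simp)
      (G0 ⊓ cond 0 (1 / 2) 0) (fun j hj q hq => ⟨hq, by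
        fin_cases j <;> simp at hj <;> first
          | (refine lin 0 (at_two hq 3) ?_; simp [fv]; done)
          | (refine lin (-1) (at_two hq 3) ?_; simp [fv]; done)
          | (refine lin (-1) (at_two hq 3) ?_; simp [fv]; ring; done)⟩) hx
    have b := exists_reg hG0 ![1, 1, 0, 0, 0] (by simp) rfl
      (fun x hx h => by convert m3 hx h using 1; ext j; fin_cases j <;> simp)
      (cond (1 / 2) (-1 / 2) 0) (fun j hj q hq => by
        fin_cases j <;> simp at hj <;> first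
          | (refine lin 0 (at_two hq 3) ?_; simp [fv]; done)
          | (refine lin 0 (at_two hq 3) ?_; simp [fv]; ring; done)
          | (refine lin 1 (at_two hq 3) ?_; simp [fv]; done)
          | (refine lin 1 (at_two hq 3) ?_; simp [fv]; ring; done)
          | (refine lin 1 (at_two hq 4) ?_; simp [fv]; done)
          | (refine lin 1 (at_two hq 4) ?_; simp [fv]; ring; done)) hx
    exact ⟨⟨a.1, lin 1 ((Zp two).add_mem b a.2) (by simp; ring)⟩, a.2⟩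
  · rintro D ⟨F, -, hF, rfl⟩ x hx
    have h1 : ∀ j, j ≠ 0 → j ≠ 6 → ∀ x ∈ G0, L j x = 0 → x ∈ ⨆ τ, F τ := by
      intro j h0 h6 x hx h
      have := (hF (crit j)).2.2
      rw [hG0.sharp, hG0.gt, show G0 ⊓ (Ws (crit j)).toAddSubgroup = ⊥ from eq_bot_iff.2
        fun y hy => (Ws_crit h6 hy.2).resolve_right fun h => h0 h.1, sup_bot_eq] at this
      exact le_iSup F (crit j) (this ▸ ⟨hx, (mem_W_crit h6).2 h⟩)
    have h2 := two_mem _ h1 (by
      intro x hx h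
      have := (hF (crit 0)).2.2
      rw [hG0.sharp, hG0.gt] at this
      obtain ⟨f, hf, y, hy, rfl⟩ := AddSubgroup.mem_sup.1 (this.ge ⟨hx,
        (mem_W_crit (by decide)).2 (by simp [V_ext, L_def, h])⟩)
      have hf' := (le_sup_left.trans this.le) hf
      refine ⟨f, le_iSup F _ hf, hf'.1, ?_, congrFun ((mem_W_crit (by decide)).1 hf'.2) 4⟩
      rcases Ws_crit (by decide) hy.2 with rfl | h <;> simp [*])
    refine odd_or _ (h2 x hx.1.1) ?_
    obtain ⟨n, hn, m, hm⟩ := clear_den (p := two) (x := ![x 0 / 2, x 1 / 2, x 2, x 3, x 4])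
      fun j => by
        fin_cases j
        exacts [lin 1 hx.1.2 (by simp; ring), lin 1 hx.2 (by simp; ring), at_two hx.1.1 2,
          at_two hx.1.1 3, at_two hx.1.1 4]
    refine ⟨n, hn, ?_⟩
    have e0 := hm 0; have e1 := hm 1; have e2 := hm 2; have e3 := hm 3; have e4 := hm 4
    simp at e0 e1 e2 e3 e4
    have : n • x = 2 • ![(m 0 - m 2 : ℚ), m 1, 0, 0, 0] + ![0, 0, 0, (m 3 : ℚ), 0] +
        ![0, 0, 0, 0, (m 4 - m 2 : ℚ)] + ![(2 * m 2 : ℚ), 0, m 2, 0, m 2] := by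
      ext j; fin_cases j <;> simp <;> linarith
    rw [this]
    refine add_mem (add_mem (add_mem (h2 _ (G0_int (m := ![m 0 - m 2, m 1, 0, 0, 0]) ?_))
      (h1 2 (by decide) (by decide) _ (G0_int (m := ![0, 0, 0, m 3, 0]) ?_) ?_))
      (h1 4 (by decide) (by decide) _ (G0_int (m := ![0, 0, 0, 0, m 4 - m 2]) ?_) ?_))
      (h1 5 (by decide) (by decide) _ (G0_int (m := ![2 * m 2, 0, m 2, 0, m 2]) ?_) ?_) <;>
    first | (intro j; fin_cases j <;> simp; done) | simp [V_ext, L_def]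

theorem butler : IsButler G0 := by
  let v : Fin 8 → V := ![![1, 0, 0, 0, 0], fv 0 1, fv 0 2, fv 0 3, fv 0 4, fv 0 5,
    ![0, 1, 0, 0, 0], ![0, 0, 1, 0, 0]]
  refine ⟨8, fun i => pc G0 (v i), fun i => rank1 hG0 (by fin_cases i <;> simp [v, fv, V_ext]),
    le_antisymm (iSup_le fun i => inf_le_left) fun x hx => ?_⟩
  have key : ∀ i y, y ∈ G0 → (∃ q : ℚ, q • v i = y) → y ∈ ⨆ i, pc G0 (v i) := fun i y h h' =>
    le_iSup (fun i => pc G0 (v i)) i (mem_pc.2 ⟨h, h'⟩)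
  refine odd_or _ (two_mem _ (fun j h0 h6 x hx h => ?_) (fun x hx h => ⟨_, key 0 _ (m0 hx h)
    ⟨x 0, by ext j; fin_cases j <;> simp [v]⟩, m0 hx h, rfl, rfl⟩) x hx) ?_
  · refine key (j.castLE (by decide)) x hx ?_
    convert (ker_fv 0 h0 h6).1 h
    fin_cases j <;> first | rfl | simp at h0 h6
  · obtain ⟨n, hn, m, hm⟩ := clear_den (p := two) (at_two hx)
    refine ⟨n, hn, ?_⟩
    have : n • x = ∑ j : Fin 5, (m j : ℚ) • v (![0, 6, 7, 2, 4] j) := by
      ext j; rw [hm]; fin_cases j <;> simp [v, fv, Fin.sum_univ_five]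
    rw [this]
    refine sum_mem fun j _ => key _ _ (G0_int (m := Pi.single j (m j)) fun i => ?_) ⟨_, rfl⟩
    fin_cases j <;> fin_cases i <;> simp [v, fv]

theorem result : ∃ G : AddSubgroup (Fin 5 → ℚ), IsButler G ∧ Reg (Reg G) ≠ Reg G := by
  refine ⟨G0, butler, ?_⟩
  rw [reg_G0]
  intro h
  have a := exists_reg hM ![2, 0, 1, 0, 0] (by simp) rfl (fun x hx h => ⟨⟨by
      have : (x 0 / ![(2 : ℚ), 0, 1, 0, 0] 0) • ![(2 : ℚ), 0, 1, 0, 0] = ![x 0, 0, x 0 / 2, 0, 0] := by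
        ext j; fin_cases j <;> simp
      exact this ▸ m4 hx.1.1 h hx.1.2, lin 1 hx.1.2 (by simp)⟩,
      lin 0 hx.2 (by simp)⟩) (cond (-1 / 4) 0 (1 / 2)) (fun j hj q hq => by
        fin_cases j <;> simp at hj <;> first
          | (refine lin 0 (at_two hq.1.1 3) ?_; simp [fv]; done)
          | (refine lin 0 (at_two hq.1.1 3) ?_; simp [fv]; ring; done)
          | (refine lin (-1) (at_two hq.1.1 3) ?_; simp [fv]; done)
          | (refine lin (-1) (at_two hq.1.1 3) ?_; simp [fv]; ring; done))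
  have b : ![0, 0, 1, 0, 0] ∈ M := ⟨⟨G0_int (m := ![0, 0, 1, 0, 0]) fun j => by
    fin_cases j <;> simp, lin 0 (Zp_int two 0) (by simp)⟩, lin 0 (Zp_int two 0) (by simp)⟩
  rw [h] at a
  have c : ((two.1 ^ 1 : ℕ) : ℚ)⁻¹ * 1 ∈ Zp two := lin 1 (a b) (by simp [two])
  exact absurd (Zp_pow_dvd c) (by simp [two])

end Pool.Agent.Results.MP_9f65ab_al.Counterexample
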